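import Pool.Agent.Lib.Pe46137T.OHard
import Pool.Agent.Lib.Pe46137i.O21

/-!
# Connected digraphs inside oriented paths with at most one change of direction

A connected digraph which is an oriented path with at most one change of direction is an induced
subdigraph of the directed path with four vertices, of `2 ← 1 ← 0 → 3` or of its reversal, or it
is `2 ← 1 ← 0 → 3 → 4` or its reversal, or it contains an induced directed path with five
vertices, an induced `3 ← 2 ← 1 ← 0 → 4` or its reversal.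
-/

namespace Pool.Agent.Lib.Pe46137C

open Pool.Agent.Lib.Pe46137h7 Pool.Agent.Lib.Pe46137i Pool.Agent.Lib.Pe46137T

/-- Any two vertices are joined by a path, directions being ignored. -/
def Conn {h : ℕ} (H : Fin h → Fin h → Prop) : Prop := ∀ i j, Relation.EqvGen H i j

/-- The directed path with four vertices. -/
def P4 (i j : Fin 4) : Prop := j.val = i.val + 1

/-- The reversal of `O21`. -/
def I21 (i j : Fin 4) : Prop := O21 j i

/-- The oriented path with vertices `2 ← 1 ← 0 → 3 → 4`. -/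
def O22 (i j : Fin 5) : Prop :=
  (i = 0 ∧ j = 1) ∨ (i = 1 ∧ j = 2) ∨ (i = 0 ∧ j = 3) ∨ (i = 3 ∧ j = 4)

/-- The reversal of `O22`. -/
def I22 (i j : Fin 5) : Prop := O22 j i

/-- The two-way infinite path directed away from `0`. -/
def Out (x y : ℤ) : Prop := (0 ≤ x ∧ y = x + 1) ∨ (x ≤ 0 ∧ y = x - 1)

theorem out_neg {x y : ℤ} : Out (-x) (-y) ↔ Out x y := by
  unfold Out; omega

/-- The conclusion of the classification. -/
def Concl {h : ℕ} (H : Fin h → Fin h → Prop) : Prop :=
  HasInd H P4 ∨ HasInd H O21 ∨ (h = 5 ∧ HasInd H O22) ∨ HasInd P5 H ∨ HasInd O31 H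

section

variable {h : ℕ} {H : Fin h → Fin h → Prop} {z : Fin h → ℤ}

/-- There is an arc over every gap. -/
theorem cross (hz : ∀ i j, i ≠ j → H i j → Out (z i) (z j)) {k : ℤ} {i j : Fin h}
    (hij : Relation.EqvGen H i j) : (z i ≤ k ∧ k < z j) ∨ (z j ≤ k ∧ k < z i) →
    ∃ a b, z a = k ∧ z b = k + 1 ∧ (0 ≤ k → H a b) ∧ (k < 0 → H b a) := by
  induction hij with
  | rel a b hab =>
    intro hk
    have hne : a ≠ b := by rintro rfl; omega
    have h1 := hz a b hne hab
    unfold Out at h1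
    rcases hk with hk | hk
    · exact ⟨a, b, by omega, by omega, fun _ => hab, fun _ => by omega⟩
    · exact ⟨b, a, by omega, by omega, fun _ => by omega, fun _ => hab⟩
  | refl a => intro hk; omega
  | symm a b _ ih => intro hk; exact ih hk.symm
  | trans a b c _ _ ih1 ih2 =>
    intro hk
    rcases lt_or_ge k (z b) with hb | hb
    · rcases hk with hk | hk
      · exact ih1 (Or.inl ⟨hk.1, hb⟩)
      · exact ih2 (Or.inr ⟨hk.1, hb⟩)
    · rcases hk with hk | hk
      · exact ih2 (Or.inl ⟨hb, hk.2⟩)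
      · exact ih1 (Or.inr ⟨hb, hk.2⟩)

theorem iff_out (hc : Conn H) (hinj : Function.Injective z)
    (hz : ∀ i j, i ≠ j → H i j → Out (z i) (z j)) {i j : Fin h} (hij : i ≠ j) :
    H i j ↔ Out (z i) (z j) := by
  refine ⟨hz i j hij, fun h1 => ?_⟩
  rcases h1 with ⟨h1, h2⟩ | ⟨h1, h2⟩
  · obtain ⟨a, b, ha, hb, h3, _⟩ := cross hz (hc i j) (k := z i) (Or.inl ⟨le_rfl, by omega⟩)
    have e1 := hinj ha
    have e2 : b = j := hinj (by omega)
    subst e1 e2
    exact h3 h1
  · obtain ⟨a, b, ha, hb, _, h3⟩ := cross hz (hc j i) (k := z j) (Or.inl ⟨le_rfl, by omega⟩)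
    have e1 := hinj ha
    have e2 : b = i := hinj (by omega)
    subst e1 e2
    exact h3 (by omega)

theorem exists_val (hc : Conn H) (hz : ∀ i j, i ≠ j → H i j → Out (z i) (z j)) {i j : Fin h}
    {k : ℤ} (h1 : z i ≤ k) (h2 : k ≤ z j) : ∃ l, z l = k := by
  rcases lt_or_eq_of_le h2 with h3 | h3
  · obtain ⟨a, _, ha, _⟩ := cross hz (hc i j) (k := k) (Or.inl ⟨h1, h3⟩)
    exact ⟨a, ha⟩
  · exact ⟨j, h3.symm⟩

theorem hasInd_of_vals (hiff : ∀ i j, i ≠ j → (H i j ↔ Out (z i) (z j))) {g : ℕ}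
    (G : Fin g → Fin g → Prop) (w : Fin g → ℤ) (hw : Function.Injective w)
    (hex : ∀ k, ∃ i, z i = w k) (hG : ∀ a b, a ≠ b → (G a b ↔ Out (w a) (w b))) :
    HasInd G H := by
  choose f hf using hex
  have hfi : Function.Injective f := fun a b hab => hw (by rw [← hf a, ← hf b, hab])
  refine ⟨f, hfi, fun a b hab => ?_⟩
  rw [hG a b hab, hiff _ _ (fun e => hab (hfi e)), hf, hf]

theorem hasInd_into (hinj : Function.Injective z)
    (hiff : ∀ i j, i ≠ j → (H i j ↔ Out (z i) (z j))) {g : ℕ}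
    (G : Fin g → Fin g → Prop) (w : Fin g → ℤ) (hex : ∀ i, ∃ k, w k = z i)
    (hG : ∀ a b, a ≠ b → (G a b ↔ Out (w a) (w b))) : HasInd H G := by
  choose f hf using hex
  have hfi : Function.Injective f := fun a b hab => hinj (by rw [← hf a, ← hf b, hab])
  refine ⟨f, hfi, fun a b hab => ?_⟩
  rw [hG _ _ (fun e => hab (hfi e)), hiff _ _ hab, hf, hf]

/-- All values are nonnegative. -/
theorem concl_nonneg (hc : Conn H) (hinj : Function.Injective z)
    (hz : ∀ i j, i ≠ j → H i j → Out (z i) (z j)) (h0 : ∀ i, 0 ≤ z i) :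
    HasInd H P4 ∨ HasInd P5 H := by
  have hiff := fun i j (hij : i ≠ j) => iff_out hc hinj hz hij
  rcases isEmpty_or_nonempty (Fin h) with he | he
  · exact Or.inl ⟨fun i => (he.false i).elim, fun i => (he.false i).elim,
      fun i => (he.false i).elim⟩
  obtain ⟨m, hm⟩ := Finite.exists_min z
  by_cases hbig : ∃ i, z m + 4 ≤ z i
  · obtain ⟨i, hi⟩ := hbig
    right
    refine hasInd_of_vals hiff P5 (fun k => z m + k.val) ?_ ?_ ?_
    · intro a b hab
      have : z m + (a.val : ℤ) = z m + (b.val : ℤ) := hab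
      exact Fin.ext (by omega)
    · intro k
      exact exists_val hc hz (i := m) (j := i) (by omega) (by have := k.isLt; omega)
    · intro a b hab
      have := h0 m
      have h1 : a.val ≠ b.val := fun e => hab (Fin.ext e)
      unfold P5 Out
      omega
  · left
    push Not at hbig
    refine hasInd_into hinj hiff P4 (fun k => z m + k.val) ?_ ?_
    · intro i
      have h1 := hbig i
      have h2 := hm i
      exact ⟨⟨(z i - z m).toNat, by omega⟩, by simp only; omega⟩
    · intro a b hab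
      have := h0 m
      have h1 : a.val ≠ b.val := fun e => hab (Fin.ext e)
      unfold P4 Out
      omega

theorem concl_mid (hc : Conn H) (hinj : Function.Injective z)
    (hz : ∀ i j, i ≠ j → H i j → Out (z i) (z j)) (h1 : ∀ i, -2 ≤ z i ∧ z i ≤ 2) (h2 : (∃ i, z i ≤ -2) → ∃ i, 2 ≤ z i) :
    HasInd H P4 ∨ HasInd H O21 ∨ (h = 5 ∧ HasInd H O22) := by
  have hiff := fun i j (hij : i ≠ j) => iff_out hc hinj hz hij
  by_cases h4 : ∃ i, z i ≤ -2
  · -- `O22`
    right; right
    obtain ⟨j, hj⟩ := h4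
    obtain ⟨i, hi⟩ := h2 ⟨j, hj⟩
    have hG : ∀ a b : Fin 5, a ≠ b →
        (O22 a b ↔ Out ((![0, 1, 2, -1, -2] : Fin 5 → ℤ) a)
          ((![0, 1, 2, -1, -2] : Fin 5 → ℤ) b)) := by
      intro a b hab
      fin_cases a <;> fin_cases b <;> simp [O22, Out] at hab ⊢
    have e1 : HasInd H O22 := by
      refine hasInd_into hinj hiff O22 ![0, 1, 2, -1, -2] ?_ hG
      intro l
      have h5 := h1 l
      have h6 : z l = -2 ∨ z l = -1 ∨ z l = 0 ∨ z l = 1 ∨ z l = 2 := by omega
      rcases h6 with h6 | h6 | h6 | h6 | h6 <;> rw [h6]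
      · exact ⟨4, by simp⟩
      · exact ⟨3, by simp⟩
      · exact ⟨0, by simp⟩
      · exact ⟨1, by simp⟩
      · exact ⟨2, by simp⟩
    have e2 : HasInd O22 H := by
      refine hasInd_of_vals hiff O22 ![0, 1, 2, -1, -2] (by decide) ?_ hG
      intro k
      refine exists_val hc hz (i := j) (j := i) ?_ ?_
      · fin_cases k <;> simp <;> omega
      · fin_cases k <;> simp <;> omega
    refine ⟨?_, e1⟩
    obtain ⟨f, hf, _⟩ := e1
    obtain ⟨g, hg, _⟩ := e2
    have l1 := Fintype.card_le_of_injective f hf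
    have l2 := Fintype.card_le_of_injective g hg
    simp only [Fintype.card_fin] at l1 l2
    omega
  · push Not at h4
    right; left
    refine hasInd_into hinj hiff O21 ![0, 1, 2, -1] ?_ ?_
    · intro l
      have h5 := h1 l
      have h7 := h4 l
      have h6 : z l = -1 ∨ z l = 0 ∨ z l = 1 ∨ z l = 2 := by omega
      rcases h6 with h6 | h6 | h6 | h6 <;> rw [h6]
      · exact ⟨3, by simp⟩
      · exact ⟨0, by simp⟩
      · exact ⟨1, by simp⟩
      · exact ⟨2, by simp⟩
    · intro a b hab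
      fin_cases a <;> fin_cases b <;> simp [O21, Out] at hab ⊢

theorem concl_pos_neg (hc : Conn H) (hinj : Function.Injective z)
    (hz : ∀ i j, i ≠ j → H i j → Out (z i) (z j)) {q : Fin h}
    (hq : z q ≤ -1) (h3 : (∃ i, 3 ≤ z i) ∨ ((∀ i, -2 ≤ z i ∧ z i ≤ 2) ∧
      ((∃ i, z i ≤ -2) → ∃ i, 2 ≤ z i))) : Concl H := by
  have hiff := fun i j (hij : i ≠ j) => iff_out hc hinj hz hij
  rcases h3 with ⟨i, hi⟩ | ⟨h1, h2⟩
  · -- an induced `O31`
    right; right; right; right
    refine hasInd_of_vals hiff O31 ![0, 1, 2, 3, -1] (by decide) ?_ ?_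
    · intro k
      refine exists_val hc hz (i := q) (j := i) ?_ ?_
      · fin_cases k <;> simp <;> omega
      · fin_cases k <;> simp <;> omega
    · intro a b hab
      fin_cases a <;> fin_cases b <;> simp [O31, Out] at hab ⊢
  · rcases concl_mid hc hinj hz h1 h2 with h | h | h
    · exact Or.inl h
    · exact Or.inr (Or.inl h)
    · exact Or.inr (Or.inr (Or.inl h))

theorem concl_out (hc : Conn H) (hinj : Function.Injective z)
    (hz : ∀ i j, i ≠ j → H i j → Out (z i) (z j)) : Concl H := by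
  have hinj' : Function.Injective fun i => - z i := fun a b hab => hinj (by simpa using hab)
  have hz' : ∀ i j, i ≠ j → H i j → Out (- z i) (- z j) :=
    fun i j hij hH => out_neg.2 (hz i j hij hH)
  by_cases hp : ∃ p, 1 ≤ z p
  · by_cases hq : ∃ q, z q ≤ -1
    · obtain ⟨p, hp⟩ := hp
      obtain ⟨q, hq⟩ := hq
      by_cases h1 : ∃ i, 3 ≤ z i
      · exact concl_pos_neg hc hinj hz hq (Or.inl h1)
      by_cases h2 : ∃ i, z i ≤ -3
      · exact concl_pos_neg hc hinj' hz' (q := p) (by omega)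
          (Or.inl (by obtain ⟨i, hi⟩ := h2; exact ⟨i, by omega⟩))
      push Not at h1 h2
      by_cases h3 : ∃ i, 2 ≤ z i
      · exact concl_pos_neg hc hinj hz hq (Or.inr ⟨fun i => ⟨by have := h2 i; omega,
          by have := h1 i; omega⟩, fun _ => h3⟩)
      · refine concl_pos_neg hc hinj' hz' (q := p) (by omega)
          (Or.inr ⟨fun i => ⟨by have := h1 i; omega, by have := h2 i; omega⟩, ?_⟩)
        rintro ⟨i, hi⟩
        exact absurd ⟨i, by omega⟩ h3
    · push Not at hq
      rcases concl_nonneg hc hinj hz (fun i => by have := hq i; omega) with h1 | h1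
      · exact Or.inl h1
      · exact Or.inr (Or.inr (Or.inr (Or.inl h1)))
  · push Not at hp
    rcases concl_nonneg hc hinj' hz' (fun i => by have := hp i; omega) with h1 | h1
    · exact Or.inl h1
    · exact Or.inr (Or.inr (Or.inr (Or.inl h1)))

end

/-! ### Reversal -/

theorem hasInd_rev {h : ℕ} {H : Fin h → Fin h → Prop} {V : Type} {E : V → V → Prop} :
    HasInd H E → HasInd (fun i j => H j i) fun x y => E y x := by
  rintro ⟨f, hf, h1⟩
  exact ⟨f, hf, fun i j hij => h1 j i hij.symm⟩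

theorem hasInd_trans {h g : ℕ} {H : Fin h → Fin h → Prop} {G : Fin g → Fin g → Prop} {V : Type}
    {E : V → V → Prop} : HasInd H G → HasInd G E → HasInd H E := by
  rintro ⟨f, hf, h1⟩ ⟨g', hg, h2⟩
  exact ⟨g' ∘ f, hg.comp hf, fun i j hij => (h1 i j hij).trans (h2 _ _ fun e => hij (hf e))⟩

theorem p4_rev : HasInd (fun i j => P4 j i) P4 := by
  refine ⟨Fin.rev, Fin.rev_injective, fun i j hij => ?_⟩
  unfold P4
  rw [Fin.val_rev, Fin.val_rev]
  omega

theorem p5_rev : HasInd P5 fun i j => P5 j i := by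
  refine ⟨Fin.rev, Fin.rev_injective, fun i j hij => ?_⟩
  show j.val = i.val + 1 ↔ (Fin.rev i).val = (Fin.rev j).val + 1
  rw [Fin.val_rev, Fin.val_rev]
  omega

theorem conn_rev {h : ℕ} {H : Fin h → Fin h → Prop} (hc : Conn H) : Conn fun i j => H j i := by
  intro i j
  have h1 := hc i j
  induction h1 with
  | rel a b hab => exact .symm _ _ (.rel _ _ hab)
  | refl a => exact .refl _
  | symm a b _ ih => exact .symm _ _ ih
  | trans a b c _ _ ih1 ih2 => exact .trans _ _ _ ih1 ih2

/-- Connectedness puts all vertices on one of the infinite paths. -/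
theorem same_path {h : ℕ} {H : Fin h → Fin h → Prop} {f : Fin h → Bool × ℕ × ℤ}
    (hf : ∀ i j, Irr H i j → Pe46137h9.Zig (f i) (f j)) {i j : Fin h}
    (hij : Relation.EqvGen H i j) : (f i).1 = (f j).1 ∧ (f i).2.1 = (f j).2.1 := by
  induction hij with
  | rel a b hab =>
    by_cases hne : a = b
    · subst hne; exact ⟨rfl, rfl⟩
    · have h1 := hf a b ⟨hab, hne⟩
      exact ⟨h1.1, h1.2.1⟩
  | refl a => exact ⟨rfl, rfl⟩
  | symm a b _ ih => exact ⟨ih.1.symm, ih.2.symm⟩
  | trans a b c _ _ ih1 ih2 => exact ⟨ih1.1.trans ih2.1, ih1.2.trans ih2.2⟩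

/-- **Classification.** -/
theorem conn_zig {h : ℕ} {H : Fin h → Fin h → Prop} (hc : Conn H)
    (hz : HasSub (Irr H) Pe46137h9.Zig) :
    HasInd H P4 ∨ HasInd H O21 ∨ HasInd H I21 ∨ (h = 5 ∧ HasInd H O22) ∨
      (h = 5 ∧ HasInd H I22) ∨ HasInd P5 H ∨ HasInd O31 H ∨ HasInd I31 H := by
  obtain ⟨f, hf, h1⟩ := hz
  rcases isEmpty_or_nonempty (Fin h) with he | ⟨⟨i₀⟩⟩
  · exact Or.inl ⟨fun i => (he.false i).elim, fun i => (he.false i).elim,
      fun i => (he.false i).elim⟩
  have hs := fun i => same_path h1 (hc i i₀)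
  have hinj : Function.Injective fun i => (f i).2.2 := fun a b hab =>
    hf (Prod.ext ((hs a).1.trans (hs b).1.symm) (Prod.ext ((hs a).2.trans (hs b).2.symm) hab))
  rcases hd : (f i₀).1 with _ | _
  · -- directed towards the centre
    have hc' := conn_rev hc
    have h2 : Concl fun i j => H j i := by
      refine concl_out hc' hinj fun i j hij hH => ?_
      obtain ⟨_, _, h3 | h3⟩ := h1 j i ⟨hH, hij.symm⟩
      · rw [(hs j).1, hd] at h3
        exact absurd h3.1 (by decide)
      · exact h3.2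
    rcases h2 with h2 | h2 | ⟨h2, h3⟩ | h2 | h2
    · exact Or.inl (hasInd_trans (hasInd_rev h2) p4_rev)
    · exact Or.inr (Or.inr (Or.inl (hasInd_rev h2)))
    · exact Or.inr (Or.inr (Or.inr (Or.inr (Or.inl ⟨h2, hasInd_rev h3⟩))))
    · exact Or.inr (Or.inr (Or.inr (Or.inr (Or.inr (Or.inl
        (hasInd_trans p5_rev (hasInd_rev h2)))))))
    · exact Or.inr (Or.inr (Or.inr (Or.inr (Or.inr (Or.inr (Or.inr (hasInd_rev h2)))))))
  · have h2 : Concl H := by
      refine concl_out hc hinj fun i j hij hH => ?_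
      obtain ⟨_, _, h3 | h3⟩ := h1 i j ⟨hH, hij⟩
      · exact h3.2
      · rw [(hs i).1, hd] at h3
        exact absurd h3.1 (by decide)
    rcases h2 with h2 | h2 | h2 | h2 | h2
    · exact Or.inl h2
    · exact Or.inr (Or.inl h2)
    · exact Or.inr (Or.inr (Or.inr (Or.inl h2)))
    · exact Or.inr (Or.inr (Or.inr (Or.inr (Or.inr (Or.inl h2)))))
    · exact Or.inr (Or.inr (Or.inr (Or.inr (Or.inr (Or.inr (Or.inl h2))))))

/-! ### Digraphs inside `Small` -/

theorem exists_arc {h : ℕ} {H : Fin h → Fin h → Prop} {i j : Fin h}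
    (hij : Relation.EqvGen H i j) : i ≠ j →
      (∃ k, k ≠ i ∧ (H i k ∨ H k i)) ∧ ∃ k, k ≠ j ∧ (H j k ∨ H k j) := by
  induction hij with
  | rel a b hab => exact fun hne => ⟨⟨b, hne.symm, Or.inl hab⟩, ⟨a, hne, Or.inr hab⟩⟩
  | refl a => exact fun hne => absurd rfl hne
  | symm a b _ ih => exact fun hne => (ih hne.symm).symm
  | trans a b c _ _ ih1 ih2 =>
    intro hne
    constructor
    · by_cases hab : a = b
      · subst hab; exact (ih2 hne).1
      · exact (ih1 hab).1
    · by_cases hbc : b = c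
      · subst hbc; exact (ih1 hne).2
      · exact (ih2 hbc).2

theorem concl_small {h : ℕ} {H : Fin h → Fin h → Prop} {z : Fin h → ℤ} (hc : Conn H)
    (hinj : Function.Injective z) (hz : ∀ i j, i ≠ j → H i j → Out (z i) (z j))
    (hr : ∀ i, -2 ≤ z i ∧ z i ≤ 2) :
    HasInd H P4 ∨ HasInd H O21 ∨ (h = 5 ∧ HasInd H O22) := by
  have hinj' : Function.Injective fun i => - z i := fun a b hab => hinj (by simpa using hab)
  have hz' : ∀ i j, i ≠ j → H i j → Out (- z i) (- z j) :=
    fun i j hij hH => out_neg.2 (hz i j hij hH)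
  have hr' : ∀ i, -2 ≤ - z i ∧ - z i ≤ 2 := fun i => ⟨by have := hr i; omega,
    by have := hr i; omega⟩
  by_cases h3 : ∃ i, 2 ≤ z i
  · by_cases hq : ∃ q, z q ≤ -1
    · obtain ⟨q, hq⟩ := hq
      exact concl_mid hc hinj hz hr fun _ => h3
    · push Not at hq
      have hiff := fun i j (hij : i ≠ j) => iff_out hc hinj hz hij
      left
      refine hasInd_into hinj hiff P4 (fun k => (k.val : ℤ)) ?_ ?_
      · intro i
        have h1 := hq i
        have h2 := hr i
        exact ⟨⟨(z i).toNat, by omega⟩, by simp only; omega⟩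
      · intro a b hab
        have h1 : a.val ≠ b.val := fun e => hab (Fin.ext e)
        unfold P4 Out
        omega
  · by_cases hp : ∃ p, 1 ≤ z p
    · obtain ⟨p, hp⟩ := hp
      refine concl_mid hc hinj' hz' hr' ?_
      rintro ⟨i, hi⟩
      exact absurd ⟨i, by omega⟩ h3
    · push Not at hp
      have hiff := fun i j (hij : i ≠ j) => iff_out hc hinj' hz' hij
      left
      refine hasInd_into hinj' hiff P4 (fun k => (k.val : ℤ)) ?_ ?_
      · intro i
        have h1 := hp i
        have h2 := hr i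
        exact ⟨⟨(- z i).toNat, by omega⟩, by simp only; omega⟩
      · intro a b hab
        have h1 : a.val ≠ b.val := fun e => hab (Fin.ext e)
        unfold P4 Out
        omega

theorem concl_path {h : ℕ} {H : Fin h → Fin h → Prop} {z : Fin h → ℤ} (hc : Conn H)
    (hinj : Function.Injective z) (hz : ∀ i j, i ≠ j → H i j → Out (z i) (z j))
    (hr : ∀ i, 0 ≤ z i ∧ z i ≤ 3) : HasInd H P4 := by
  have hiff := fun i j (hij : i ≠ j) => iff_out hc hinj hz hij
  refine hasInd_into hinj hiff P4 (fun k => (k.val : ℤ)) ?_ ?_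
  · intro i
    have h2 := hr i
    exact ⟨⟨(z i).toNat, by omega⟩, by simp only; omega⟩
  · intro a b hab
    have h1 : a.val ≠ b.val := fun e => hab (Fin.ext e)
    unfold P4 Out
    omega

/-- Connectedness puts all vertices on one of the copies. -/
theorem same_copy {h : ℕ} {H : Fin h → Fin h → Prop} {f : Fin h → Fin 3 × ℕ × ℤ}
    (hf : ∀ i j, Irr H i j → Small (f i) (f j)) {i j : Fin h}
    (hij : Relation.EqvGen H i j) : (f i).1 = (f j).1 ∧ (f i).2.1 = (f j).2.1 := by
  induction hij with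
  | rel a b hab =>
    by_cases hne : a = b
    · subst hne; exact ⟨rfl, rfl⟩
    · have h1 := hf a b ⟨hab, hne⟩
      exact ⟨h1.1, h1.2.1⟩
  | refl a => exact ⟨rfl, rfl⟩
  | symm a b _ ih => exact ⟨ih.1.symm, ih.2.symm⟩
  | trans a b c _ _ ih1 ih2 => exact ⟨ih1.1.trans ih2.1, ih1.2.trans ih2.2⟩

/-- **Classification, easy side.**  A connected digraph inside `Small` is an induced subdigraph
of one of the three easy digraphs or it is one of the two digraphs left open. -/
theorem conn_small {h : ℕ} {H : Fin h → Fin h → Prop} (hc : Conn H)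
    (hs : HasSub (Irr H) Small) :
    HasInd H P4 ∨ HasInd H O21 ∨ HasInd H I21 ∨ (h = 5 ∧ (HasInd H O22 ∨ HasInd H I22)) := by
  obtain ⟨f, hf, h1⟩ := hs
  rcases subsingleton_or_nontrivial (Fin h) with he | hn
  · exact Or.inl ⟨fun _ => 0, fun a b _ => Subsingleton.elim a b,
      fun i j hij => absurd (Subsingleton.elim i j) hij⟩
  obtain ⟨i₀, _, _⟩ := id hn
  have hs := fun i => same_copy h1 (hc i i₀)
  have hinj : Function.Injective fun i => (f i).2.2 := fun a b hab =>
    hf (Prod.ext ((hs a).1.trans (hs b).1.symm) (Prod.ext ((hs a).2.trans (hs b).2.symm) hab))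
  have harc : ∀ i, ∃ k, k ≠ i ∧ (H i k ∨ H k i) := by
    intro i
    obtain ⟨j, hj⟩ := exists_ne i
    exact (exists_arc (hc i j) hj.symm).1
  have hcase : (f i₀).1 = 0 ∨ (f i₀).1 = 1 ∨ (f i₀).1 = 2 := by
    generalize (f i₀).1 = c
    fin_cases c <;> simp
  rcases hcase with hd | hd | hd
  · have h2 : ∀ i j, i ≠ j → H i j → 0 ≤ (f i).2.2 ∧ (f j).2.2 = (f i).2.2 + 1 ∧
        (f j).2.2 ≤ 3 := by
      intro i j hij hH
      have hi := (hs i).1.trans hd
      obtain ⟨_, _, ⟨_, h3⟩ | ⟨h3, _⟩ | ⟨h3, _⟩⟩ := h1 i j ⟨hH, hij⟩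
      · exact h3
      · rw [hi] at h3; exact absurd h3 (by decide)
      · rw [hi] at h3; exact absurd h3 (by decide)
    refine Or.inl (concl_path hc hinj (fun i j hij hH => ?_) fun i => ?_)
    · have h3 := h2 i j hij hH
      exact Or.inl ⟨h3.1, h3.2.1⟩
    · obtain ⟨k, hk, hH | hH⟩ := harc i
      · have h3 := h2 i k hk.symm hH
        exact ⟨by omega, by omega⟩
      · have h3 := h2 k i hk hH
        exact ⟨by omega, by omega⟩
  · have h2 : ∀ i j, i ≠ j → H i j → Out (f i).2.2 (f j).2.2 ∧ -2 ≤ (f j).2.2 ∧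
        (f j).2.2 ≤ 2 := by
      intro i j hij hH
      have hi := (hs i).1.trans hd
      obtain ⟨_, _, ⟨h3, _⟩ | ⟨_, h3⟩ | ⟨h3, _⟩⟩ := h1 i j ⟨hH, hij⟩
      · rw [hi] at h3; exact absurd h3 (by decide)
      · exact h3
      · rw [hi] at h3; exact absurd h3 (by decide)
    rcases concl_small hc hinj (fun i j hij hH => (h2 i j hij hH).1) (fun i => by
      obtain ⟨k, hk, hH | hH⟩ := harc i
      · have h3 := h2 i k hk.symm hH
        unfold Out at h3
        constructor <;> omega
      · have h3 := h2 k i hk hH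
        exact h3.2) with h3 | h3 | h3
    · exact Or.inl h3
    · exact Or.inr (Or.inl h3)
    · exact Or.inr (Or.inr (Or.inr ⟨h3.1, Or.inl h3.2⟩))
  · have h2 : ∀ i j, i ≠ j → H j i → Out (f i).2.2 (f j).2.2 ∧ -2 ≤ (f j).2.2 ∧
        (f j).2.2 ≤ 2 := by
      intro i j hij hH
      have hj := (hs j).1.trans hd
      obtain ⟨_, _, ⟨h3, _⟩ | ⟨h3, _⟩ | ⟨_, h3⟩⟩ := h1 j i ⟨hH, hij.symm⟩
      · rw [hj] at h3; exact absurd h3 (by decide)
      · rw [hj] at h3; exact absurd h3 (by decide)
      · exact h3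
    rcases concl_small (conn_rev hc) hinj (fun i j hij hH => (h2 i j hij hH).1) (fun i => by
      obtain ⟨k, hk, hH | hH⟩ := harc i
      · have h3 := h2 k i hk hH
        exact h3.2
      · have h3 := h2 i k hk.symm hH
        unfold Out at h3
        constructor <;> omega) with h3 | h3 | h3
    · exact Or.inl (hasInd_trans (hasInd_rev h3) p4_rev)
    · exact Or.inr (Or.inr (Or.inl (hasInd_rev h3)))
    · exact Or.inr (Or.inr (Or.inr ⟨h3.1, Or.inr (hasInd_rev h3.2)⟩))

end Pool.Agent.Lib.Pe46137C
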